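import Mathlib
import Pool.Agent.H31.Spec

set_option autoImplicit false
open Matrix Finset SimpleGraph Classical

namespace Pool.Agent.Results.MP_2bde17_co.Counter

noncomputable def spex {m : ℕ} (n : ℕ) (T : SimpleGraph (Fin m)) : ℝ :=
  sSup {x | ∃ G : SimpleGraph (Fin n), ¬ T ⊑ G ∧ x = sSup (spectrum ℝ (G.adjMatrix ℝ))}

/-- T is a tree whose smaller colour class has l + 1 vertices and minimum degree δ. -/
def InClass {m : ℕ} (T : SimpleGraph (Fin m)) (l δ : ℕ) : Prop :=
  T.IsTree ∧ ∃ A : Finset (Fin m), (∀ u v, T.Adj u v → (u ∈ A ↔ v ∉ A)) ∧ A.card = l + 1 ∧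
    l + 1 ≤ Aᶜ.card ∧ (∃ v ∈ A, T.degree v = δ) ∧ (∀ v ∈ A, δ ≤ T.degree v) ∧
    (Aᶜ.card = l + 1 → ∀ v ∉ A, δ ≤ T.degree v)

/-- The join of l isolated vertices with m disjoint stars on δ vertices. -/
def J (l m δ : ℕ) : SimpleGraph (Fin l ⊕ Fin m × Fin δ) where
  Adj
    | .inl _, .inl _ => False
    | .inr a, .inr b => a.1 = b.1 ∧ a.2 ≠ b.2 ∧ (a.2.val = 0 ∨ b.2.val = 0)
    | _, _ => True
  symm := ⟨by
    rintro (a | a) (b | b) h; exacts [h, trivial, trivial, ⟨h.1.symm, h.2.1.symm, h.2.2.symm⟩]⟩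
  loopless := ⟨by rintro (a | a) h; exacts [h, h.2.1 rfl]⟩

noncomputable def f (l x n : ℝ) : ℝ :=
  (l + x - 1 + √((l + x - 1) ^ 2 + 4 * (n * l + x - l * x - l ^ 2))) / 2

def E : List (Fin 6 × Fin 6) := [(0, 1), (0, 2), (0, 3), (1, 4), (1, 5)]

def S : SimpleGraph (Fin 6) where
  Adj i j := (i, j) ∈ E ∨ (j, i) ∈ E
  symm := ⟨fun _ _ => Or.symm⟩
  loopless := ⟨by decide⟩

instance : DecidableRel S.Adj := fun i j => by unfold S; infer_instance

theorem deg {n : ℕ} (G : SimpleGraph (Fin n)) (h : ¬ S ⊑ G) (v u : Fin n) (a : G.Adj v u)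
    (b : 5 ≤ G.degree v) : G.degree u ≤ 2 := by
  by_contra c
  obtain ⟨x, hx, y, hy, e⟩ := one_lt_card.mp (show 1 < (G.neighborFinset u \ {v}).card by
    have := le_card_sdiff {v} (G.neighborFinset u)
    simp at this; omega)
  obtain ⟨z, hz, w, hw, e'⟩ := one_lt_card.mp (show 1 < (G.neighborFinset v \ {u, x, y}).card by
    have := le_card_sdiff {u, x, y} (G.neighborFinset v)
    have := card_le_three (a := u) (b := x) (c := y)
    simp at *; omega)
  simp only [mem_sdiff, mem_neighborFinset, mem_singleton, mem_insert, not_or] at hx hy hz hw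
  have := a.ne; have := hx.1.ne; have := hy.1.ne; have := hz.1.ne; have := hw.1.ne
  refine h ⟨⟨⟨![v, u, z, w, x, y], fun {i j} hij => ?_⟩, fun i j hij => ?_⟩⟩
  · have k : ∀ p ∈ E, G.Adj (![v, u, z, w, x, y] p.1) (![v, u, z, w, x, y] p.2) := by
      simp [E, a, hx.1, hy.1, hz.1, hw.1]
    exact hij.elim (k _) fun h => (k _ h).symm
  · fin_cases i <;> fin_cases j <;> simp at hij ⊢ <;> grind

theorem up (n : ℕ) (hn : 9 ≤ n) : spex n S ≤ √(2 * (n - 1)) := by
  refine Real.sSup_le ?_ (Real.sqrt_nonneg _)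
  rintro _ ⟨G, h, rfl⟩
  refine Real.sSup_le (fun t ht => Real.le_sqrt_of_sq_le ?_) (Real.sqrt_nonneg _)
  obtain ⟨x, x0, hx⟩ := H31.Spec.eigvec ht
  obtain ⟨v, -, hv⟩ := exists_max_image univ (fun i => |x i|) ⟨⟨0, by omega⟩, mem_univ _⟩
  have p : 0 < |x v| := by
    by_contra c
    exact x0 (funext fun i => abs_nonpos_iff.mp ((hv i (mem_univ _)).trans (not_lt.mp c)))
  have e : ∀ i, t * x i = ∑ j ∈ G.neighborFinset i, x j := fun i => by
    simpa using (congrFun hx i).symm
  have r : ∑ u ∈ G.neighborFinset v, G.degree u ≤ 2 * (n - 1) := by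
    have d : ∀ u, G.degree u ≤ n - 1 := fun u => by
      have := G.degree_lt_card_verts u; simp at this; omega
    have d2 := d v
    by_cases c : 5 ≤ G.degree v
    · refine (sum_le_card_nsmul _ _ 2 fun u hu => deg G h v u (by simpa using hu) c).trans ?_
      simp; omega
    by_cases c2 : G.degree v ≤ 2
    · refine (sum_le_card_nsmul _ _ _ fun u _ => d u).trans ?_
      simpa using Nat.mul_le_mul_right _ c2
    · refine (sum_le_card_nsmul _ _ 4 fun u hu => ?_).trans (by simp; omega)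
      by_contra c3
      exact c2 (deg G h u v (by simpa [adj_comm] using hu) (by omega))
  have r2 : (∑ u ∈ G.neighborFinset v, G.degree u : ℝ) ≤ 2 * (n - 1) := by
    rw [← Nat.cast_pred (by omega)]; exact_mod_cast r
  refine le_of_mul_le_mul_right (le_trans ?_ (mul_le_mul_of_nonneg_right r2 p.le)) p
  rw [← abs_sq, ← abs_mul, sq, mul_assoc, e, mul_sum, sum_mul]
  refine (abs_sum_le_sum_abs _ _).trans (sum_le_sum fun u _ => ?_)
  rw [e]
  exact (abs_sum_le_sum_abs _ _).trans ((sum_le_card_nsmul _ _ _ fun w _ =>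
    hv w (mem_univ _)).trans (by simp))

theorem result : ¬ ∀ (m l δ : ℕ) (T : SimpleGraph (Fin m)), 2 ≤ m → 1 ≤ δ → InClass T l δ →
    ¬ T ⊑ J l m δ → ∃ (C : ℝ) (N : ℕ), ∀ n ≥ N, |spex n T - f l (δ - 1) n| ≤ C / n := by
  intro h
  have dg : ∀ v (i : Fintype (S.neighborSet v)), 1 ≤ @degree _ S v i := fun v i =>
    (S.degree_pos_iff_exists_adj v).mpr ((show ∀ v, ∃ w, S.Adj v w by decide) v)
  have d4 : ∀ i : Fintype (S.neighborSet 4), @degree _ S 4 i = 1 := fun i => by
    rw [← card_neighborFinset_eq_degree, show @neighborFinset _ S 4 i = {1} by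
      ext x; rw [mem_neighborFinset]; revert x; decide, card_singleton]
  obtain ⟨C, N, hC⟩ := h 6 2 1 S (by omega) le_rfl ⟨isTree_iff_connected_and_card.mpr
    ⟨by decide +kernel, by
      rw [Nat.card_eq_fintype_card, Nat.card_eq_fintype_card, ← edgeFinset_card]; decide⟩,
    {0, 4, 5}, by decide, rfl, by decide, ⟨4, by decide, d4 _⟩,
    fun v _ => dg v _, fun _ v _ => dg v _⟩ (by
      rintro ⟨g⟩
      have k : ∀ u v, S.Adj u v → (g u).isLeft = !(g v).isLeft := fun u v a => by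
        have := g.toHom.map_adj a
        change (J 2 6 1).Adj (g u) (g v) at this
        revert this
        rcases g u with x | x <;> rcases g v with y | y <;> simp [J, Fin.eq_zero]
      have t : ∀ a b c : Fin 2 ⊕ Fin 6 × Fin 1, a.isLeft → b.isLeft → c.isLeft →
          a = b ∨ a = c ∨ b = c := by
        rintro (a | a) (b | b) (c | c) <;> simp
        omega
      have k1 := k 0 1 (by decide)
      by_cases c : (g 0).isLeft
      · have := t (g 0) (g 4) (g 5) c (by rw [k 4 1 (by decide), ← k1, c])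
          (by rw [k 5 1 (by decide), ← k1, c])
        simp only [show ∀ a b, g a = g b ↔ a = b from fun _ _ => g.injective.eq_iff] at this
        exact absurd this (by decide)
      · have := t (g 1) (g 2) (g 3) (by rw [k 1 0 (by decide)]; simpa using c)
          (by rw [k 2 0 (by decide)]; simpa using c) (by rw [k 3 0 (by decide)]; simpa using c)
        simp only [show ∀ a b, g a = g b ↔ a = b from fun _ _ => g.injective.eq_iff] at this
        exact absurd this (by decide))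
  obtain ⟨M, hM⟩ := exists_nat_gt (4 * C)
  have a := (abs_le.mp (hC (N + M + 9) (by omega))).1
  have b := up (N + M + 9) (by omega)
  have c : (9 : ℝ) ≤ (N + M + 9 : ℕ) ∧ (M : ℝ) ≤ (N + M + 9 : ℕ) := by
    constructor <;> exact_mod_cast (by omega)
  generalize ((N + M + 9 : ℕ) : ℝ) = n at *
  have d : C / n < 1 / 4 := by rw [div_lt_iff₀ (by linarith)]; linarith
  have e : 2 * √(2 * (n - 1)) - 1 / 2 ≤ √(8 * n - 15) := by
    have q := Real.sq_sqrt (show 0 ≤ 2 * (n - 1) by linarith)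
    have r : 4 ≤ √(2 * (n - 1)) := Real.le_sqrt_of_sq_le (by linarith)
    exact Real.le_sqrt_of_sq_le (by nlinarith)
  simp only [f, Nat.cast_ofNat, Nat.cast_one] at a
  rw [show (2 + (1 - 1) - 1) ^ 2 + 4 * (n * 2 + (1 - 1) - 2 * (1 - 1) - 2 ^ 2) = 8 * n - 15 by ring] at a
  linarith

end Pool.Agent.Results.MP_2bde17_co.Counter
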